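import Pool.Agent.H6.LeepC.Main

/-!
Leep's estimate (C): the bound in all degrees.
-/

namespace LeepC

open Module LeepA QuadraticMap

theorem num5 {N e f u : ℕ} (hu : 1 ≤ u) (h1 : e + 4 = 2 * f) (h2 : 4 * N ≤ 3 * (f + 1) * u) :
    2 * ((e + 4) * N) + 2 * (e + 1) ≤ (e + 4) * (e + 5) * u := by
  obtain ⟨g, rfl⟩ : ∃ g, f = g + 2 := ⟨f - 2, by omega⟩
  obtain rfl : e = 2 * g := by omega
  obtain ⟨t, rfl⟩ : ∃ t, u = t + 1 := ⟨u - 1, by omega⟩
  have h3 : (g + 2) * (4 * N) ≤ (g + 2) * (3 * (g + 2 + 1) * (t + 1)) := Nat.mul_le_mul_left _ h2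
  have h4 : g ≤ g * g := Nat.le_mul_self g
  nlinarith

theorem bound {K L : Type*} [Field K] [Field L] [Algebra K L] [FiniteDimensional K L] {u N e : ℕ}
    (h1 : ¬ HasAnisoSystem K 1 (u + 1)) (hu : 1 ≤ u) (hN : HasAnisoSystem L 1 N)
    (hd : finrank K L = e + 4) :
    2 * ((e + 4) * N) + 2 * (e + 1) ≤ (e + 4) * (e + 5) * u := by
  by_cases hA : ∀ c : L, c ∉ K ∙ (1 : L) → c⁻¹ ∉ (K ∙ (1 : L)) ⊔ K ∙ c
  · obtain ⟨q', hq'⟩ := hN
    have hq : ∀ v, q' 0 v = 0 → v = 0 := by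
      intro v hv
      apply hq'
      intro i
      rw [Subsingleton.elim i 0]
      exact hv
    generalize q' 0 = q at hq
    have h2 := core (K := K) (V := Fin N → L) (q.restrictScalars (S := K)) hq
      (fun a v => by
        have h3 := QuadraticMap.map_smul q a v
        rw [smul_eq_mul] at h3
        exact h3)
      (fun a v w => by
        have h3 := polar_smul_left q a v w
        rw [smul_eq_mul] at h3
        exact h3) h1 hu hd hA
    have h3 : finrank K (Fin N → L) = (e + 4) * N := by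
      rw [finrank_pi_fintype, Finset.sum_const, Finset.card_univ, Fintype.card_fin, smul_eq_mul,
        mul_comm, hd]
    rwa [h3] at h2
  · push Not at hA
    obtain ⟨c, hc, hc'⟩ := hA
    obtain ⟨f, hf, hf'⟩ := case_quadratic h1 hN c hc hc'
    rw [hd] at hf
    exact num5 hu hf hf'

theorem bound' {K L : Type*} [Field K] [Field L] [Algebra K L] [FiniteDimensional K L] {u N : ℕ}
    (h1 : ¬ HasAnisoSystem K 1 (u + 1)) (hu : 1 ≤ u) (hN : HasAnisoSystem L 1 N) :
    2 * finrank K L * N + 2 * finrank K L ≤ finrank K L * (finrank K L + 1) * u + 6 ∧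
      (4 ≤ finrank K L → 2 * N < (finrank K L + 1) * u) := by
  by_cases hd : 4 ≤ finrank K L
  · obtain ⟨e, he⟩ : ∃ e, finrank K L = e + 4 := ⟨finrank K L - 4, by omega⟩
    have h2 := bound h1 hu hN he
    rw [he]
    have h3 : (e + 4) * (2 * N) < (e + 4) * ((e + 5) * u) := by nlinarith
    exact ⟨by nlinarith, fun _ => by
      have := Nat.lt_of_mul_lt_mul_left h3
      omega⟩
  · refine ⟨?_, fun h => absurd h hd⟩
    have h2 := leepC h1 hN
    have h3 : finrank K L * (2 * N) ≤ finrank K L * ((finrank K L + 1) * u) :=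
      Nat.mul_le_mul_left _ h2
    have h4 : finrank K L ≤ 3 := by omega
    nlinarith

theorem final {K L : Type*} [Field K] [Field L] [Algebra K L] [FiniteDimensional K L]
    (hK : uInv K 1 ≠ ⊤) :
    2 * (finrank K L : ℕ∞) * uInv L 1 + 2 * (finrank K L : ℕ∞) ≤
        (finrank K L : ℕ∞) * ((finrank K L : ℕ∞) + 1) * uInv K 1 + 6 ∧
      (4 ≤ finrank K L → 2 * uInv L 1 < ((finrank K L : ℕ∞) + 1) * uInv K 1) := by
  obtain ⟨u, hu⟩ := ENat.ne_top_iff_exists.mp hK
  have h1 : ¬ HasAnisoSystem K 1 (u + 1) := not_aniso_of_uInv hu.symm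
  have hu1 : 1 ≤ u := by
    have h2 : ((1 : ℕ) : ℕ∞) ≤ uInv K 1 :=
      le_iSup₂_of_le (f := fun (N : ℕ) (_ : HasAnisoSystem K 1 N) => (N : ℕ∞)) 1
        hasAnisoSystem_one le_rfl
    rw [← hu] at h2
    exact_mod_cast h2
  obtain ⟨m, hm, hum⟩ := exists_uInv (K := L) (r := 1) (B := (finrank K L + 1) * u) (by
    intro N hN
    have := leepC h1 hN
    omega)
  have h2 := bound' h1 hu1 hm
  rw [hum, ← hu]
  refine ⟨by exact_mod_cast h2.1, fun h => by exact_mod_cast h2.2 h⟩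

end LeepC
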