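import Pool.Agent.H6.LeepC.Tower

/-!
Leep's estimate (C) is never sharp in degree at least four.
-/

namespace LeepC

open Module LeepA QuadraticMap

theorem num1 {D n m e u : ℕ} (h1 : D ≤ (n + m) + n * (e + 3)) (h2 : 2 * m ≤ (e + 3) * (e + 4) * u)
    (h3 : n ≤ u) (h4 : (e + 4) * (e + 5) * u < 2 * D + 2 * (e + 1)) : n = u := by
  by_contra hne
  obtain ⟨t, rfl⟩ : ∃ t, u = n + 1 + t := ⟨u - (n + 1), by omega⟩
  nlinarith

theorem num2 {D v e u : ℕ} (h1 : D ≤ v + u * (e + 4)) (h2 : v ≤ u) (hu : 1 ≤ u)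
    (h4 : (e + 4) * (e + 5) * u < 2 * D + 2 * (e + 1)) : False := by
  obtain ⟨t, rfl⟩ : ∃ t, u = t + 1 := ⟨u - 1, by omega⟩
  nlinarith

theorem num3 {D h g h' n m e u : ℕ} (h1 : h ≤ g + (e + 3)) (h2 : D ≤ h + u * (e + 3))
    (h3 : g ≤ h' + n * (e + 2)) (h5 : h' = u + (n + 1) + m) (h6 : 2 * m ≤ (e + 2) * (e + 3) * u)
    (h7 : n + 1 ≤ u)
    (h4 : (e + 4) * (e + 5) * u < 2 * D + 2 * (e + 1)) : n + 1 = u := by
  by_contra hne
  obtain ⟨t, rfl⟩ : ∃ t, u = n + 2 + t := ⟨u - (n + 2), by omega⟩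
  nlinarith

theorem num4 {D h h2 h3 n m e u : ℕ} (k1 : D ≤ h + u * (e + 3)) (k2 : h ≤ h2 + u * (e + 2))
    (k3 : h2 ≤ h3 + n * (e + 1)) (k4 : h3 = (u + u + (n + 1)) + m)
    (k5 : 2 * m ≤ (e + 1) * (e + 2) * u) (k6 : n + 1 ≤ u)
    (h4 : (e + 4) * (e + 5) * u < 2 * D + 2 * (e + 1)) : False := by
  obtain ⟨t, rfl⟩ : ∃ t, u = n + 1 + t := ⟨u - (n + 1), by omega⟩
  nlinarith

theorem polar_mem {K V U : Type*} [Field K] [AddCommGroup V] [Module K V] [AddCommGroup U]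
    [Module K U] (Q : QuadraticMap K V U) (S : Submodule K U) (W : Submodule K V)
    (hW : ∀ w ∈ W, Q w ∈ S) : ∀ v ∈ W, ∀ w ∈ W, polar Q v w ∈ S := by
  intro v hv w hw
  rw [polar]
  exact S.sub_mem (S.sub_mem (hW _ (W.add_mem hv hw)) (hW _ hv)) (hW _ hw)

section
variable {K L V : Type*} [Field K] [Field L] [Algebra K L] [FiniteDimensional K L]
  [AddCommGroup V] [Module K V] [Module L V] [FiniteDimensional K V]

theorem core (Q : QuadraticMap K V L) (hQ : ∀ v, Q v = 0 → v = 0)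
    (hsm : ∀ (a : L) (v : V), Q (a • v) = a * a * Q v)
    (hpl : ∀ (a : L) (v w : V), polar Q (a • v) w = a * polar Q v w) {u e : ℕ}
    (h1 : ¬ HasAnisoSystem K 1 (u + 1)) (hu : 1 ≤ u) (hd : finrank K L = e + 4)
    (hA : ∀ c : L, c ∉ K ∙ (1 : L) → c⁻¹ ∉ (K ∙ (1 : L)) ⊔ K ∙ c) :
    2 * finrank K V + 2 * (e + 1) ≤ (e + 4) * (e + 5) * u := by
  by_contra hcon
  push Not at hcon
  have hz0 : ∀ v : V, polar Q v 0 = 0 := by
    intro v
    have h5 := polar_smul_right Q (0 : K) v 0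
    rwa [zero_smul, zero_smul] at h5
  -- the first step
  have hq1 : finrank K (L ⧸ (K ∙ (1 : L))) = e + 3 := by
    have h5 := Submodule.finrank_quotient_add_finrank (K ∙ (1 : L))
    rw [finrank_span_singleton one_ne_zero, hd] at h5
    omega
  obtain ⟨W1, -, -, hW1, hmax1⟩ := exists_max Q (K ∙ (1 : L)) ⊥ ⊤ bot_le (by
    intro w hw
    rw [Submodule.mem_bot] at hw
    rw [hw, QuadraticMap.map_zero]
    exact Submodule.zero_mem _)
  obtain ⟨n1, hn1, hn1'⟩ := line_bound Q ⊥ 1 ⊥ W1 bot_le (by rwa [bot_sup_eq])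
    (fun v _ hv => by
      rw [Submodule.mem_bot] at hv ⊢
      exact hQ v hv)
  have hn1u := le_of_aniso h1 hn1'
  rw [finrank_bot, zero_add] at hn1
  have hbot : ∀ (S : Submodule K L), ∀ v ∈ (⊤ : Submodule K V), ∀ w ∈ (⊥ : Submodule K V),
      polar Q v w ∈ S := by
    intro S v _ w hw
    rw [Submodule.mem_bot] at hw
    rw [hw, hz0]
    exact S.zero_mem
  have hcod1 := codim Q (K ∙ (1 : L)) ⊤ ⊥ W1 bot_le (hbot _) (n := n1)
    (by rw [finrank_bot, zero_add, hn1])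
  have hW1H : W1 ≤ orth Q (K ∙ (1 : L)) ⊤ W1 := fun w hw =>
    ⟨trivial, fun w' hw' => polar_mem Q _ W1 hW1 w hw w' hw'⟩
  obtain ⟨m1, hm1, hm1'⟩ := aniso_bound Q (K ∙ (1 : L)) W1 _ hW1H hmax1
  have hm1u := leepB h1 _ _ hm1'
  rw [hq1] at hcod1 hm1u
  rw [finrank_top] at hcod1
  have hn1e : n1 = u := num1 (D := finrank K V) (m := m1) (e := e)
    (by rw [hm1, hn1] at hcod1; exact hcod1) hm1u hn1u hcon
  subst hn1e
  generalize hH1 : orth Q (K ∙ (1 : L)) ⊤ W1 = H1 at *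
  -- the vector `w`
  obtain ⟨w, hwV, hwW⟩ : ∃ w ∈ orth Q (⊥ : Submodule K L) ⊤ W1, w ∉ W1 := by
    by_contra hno
    push Not at hno
    have h5 : finrank K (orth Q (⊥ : Submodule K L) ⊤ W1) ≤ n1 := by
      rw [← hn1]
      exact Submodule.finrank_mono hno
    have h6 := codim Q (⊥ : Submodule K L) ⊤ ⊥ W1 bot_le (hbot _) (n := n1)
      (by rw [finrank_bot, zero_add, hn1])
    have h7 : finrank K (L ⧸ (⊥ : Submodule K L)) = e + 4 := by
      have h8 := Submodule.finrank_quotient_add_finrank (⊥ : Submodule K L)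
      rw [finrank_bot, hd] at h8
      omega
    rw [finrank_top, h7] at h6
    exact num2 h6 h5 hu hcon
  have hwp : ∀ x ∈ W1, polar Q w x = 0 := fun x hx => (Submodule.mem_bot K).mp (hwV.2 x hx)
  have hwH1 : w ∈ H1 := by
    rw [← hH1]
    refine ⟨trivial, fun x hx => ?_⟩
    rw [hwp x hx]
    exact Submodule.zero_mem _
  obtain ⟨c, hc⟩ : ∃ c, c = Q w := ⟨_, rfl⟩
  have hcS : c ∉ K ∙ (1 : L) := by
    rw [hc]
    exact fun h => hwW (hmax1 w hwH1 h)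
  have hcA := hA c hcS
  have hc0 : c ≠ 0 := fun h => hcS (h ▸ Submodule.zero_mem _)
  have hq2 : finrank K (L ⧸ ((K ∙ (1 : L)) ⊔ K ∙ c)) = e + 2 := by
    have h5 := finrank_quot_sup (K ∙ (1 : L)) c hcS
    omega
  have hqc : finrank K (L ⧸ (K ∙ c)) = e + 3 := by
    have h5 := Submodule.finrank_quotient_add_finrank (K ∙ c)
    rw [finrank_span_singleton hc0, hd] at h5
    omega
  have hq3 : finrank K (L ⧸ ((K ∙ (1 : L)) ⊔ (K ∙ c) ⊔ K ∙ c⁻¹)) = e + 1 := by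
    have h5 := finrank_quot_sup ((K ∙ (1 : L)) ⊔ K ∙ c) c⁻¹ hcA
    omega
  -- the subspace `G`
  obtain ⟨G, hG⟩ : ∃ G, G = orth Q (K ∙ c) H1 (K ∙ w) := ⟨_, rfl⟩
  have hGH1 : G ≤ H1 := by
    rw [hG]
    exact orth_le _ _ _ _
  have hw0 : w ≠ 0 := fun h => hwW (h ▸ W1.zero_mem)
  have hcodG : finrank K H1 ≤ finrank K G + (e + 3) := by
    have h5 := codim Q (K ∙ c) H1 ⊥ (K ∙ w) bot_le (by
      intro v _ x hx
      rw [Submodule.mem_bot] at hx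
      rw [hx, hz0]
      exact Submodule.zero_mem _) (n := 1) (by rw [finrank_bot, finrank_span_singleton hw0])
    rw [hqc, one_mul, ← hG] at h5
    exact h5
  have hGw : ∀ v ∈ G, ∃ a : K, polar Q v w = a • c := by
    intro v hv
    rw [hG] at hv
    obtain ⟨a, ha⟩ := Submodule.mem_span_singleton.mp (hv.2 w (Submodule.mem_span_singleton_self w))
    exact ⟨a, ha.symm⟩
  have hW1H1 : W1 ≤ H1 := hW1H
  have hW1G : W1 ≤ G := by
    intro x hx
    rw [hG]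
    refine ⟨hW1H1 hx, fun y hy => ?_⟩
    obtain ⟨a, rfl⟩ := Submodule.mem_span_singleton.mp hy
    rw [polar_smul_right, polar_comm, hwp x hx, smul_zero]
    exact Submodule.zero_mem _
  have hwG : w ∈ G := by
    rw [hG]
    refine ⟨hwH1, fun y hy => ?_⟩
    obtain ⟨a, rfl⟩ := Submodule.mem_span_singleton.mp hy
    rw [polar_smul_right, polar_self, ← hc]
    exact Submodule.smul_mem _ _ (nsmul_mem (Submodule.mem_span_singleton_self c) 2)
  -- the second step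
  obtain ⟨S2, hS2⟩ : ∃ S2, S2 = (K ∙ (1 : L)) ⊔ K ∙ c := ⟨_, rfl⟩
  have hS12 : (K ∙ (1 : L)) ≤ S2 := by
    rw [hS2]
    exact le_sup_left
  have hcS2 : c ∈ S2 := by
    rw [hS2]
    exact Submodule.mem_sup_right (Submodule.mem_span_singleton_self c)
  have h1S2 : (1 : L) ∈ S2 := hS12 (Submodule.mem_span_singleton_self 1)
  rw [← hS2] at hq2 hcA hq3
  obtain ⟨W2, hW12, hW2G, hW2, hmax2⟩ := exists_max Q S2 (W1 ⊔ K ∙ w) G
    (sup_le hW1G ((Submodule.span_singleton_le_iff_mem _ _).mpr hwG))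
    (iso_sup Q S2 W1 w (fun x hx => hS12 (hW1 x hx)) (fun x hx => by
      rw [hwp x hx]
      exact Submodule.zero_mem _) (by rw [← hc]; exact hcS2))
  have hW1W2 : W1 ≤ W2 := le_sup_left.trans hW12
  have hwW2 : w ∈ W2 := hW12 (Submodule.mem_sup_right (Submodule.mem_span_singleton_self w))
  have hH1max : ∀ v ∈ H1, Q v ∈ K ∙ (1 : L) → v ∈ W1 := hmax1
  obtain ⟨n2, hn2, hn2'⟩ := line_bound Q (K ∙ (1 : L)) c W1 W2 hW1W2 (by rwa [← hS2])
    (fun v hv hv' => hH1max v (hGH1 (hW2G hv)) hv')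
  have hn2u := le_of_aniso h1 hn2'
  have hfw : finrank K ↥(W1 ⊔ K ∙ w) = n1 + 1 := by
    rw [finrank_sup_span W1 w hwW, hn1]
  obtain ⟨k2, rfl⟩ : ∃ k, n2 = k + 1 := by
    have h5 := Submodule.finrank_mono hW12
    rw [hfw] at h5
    exact ⟨n2 - 1, by omega⟩
  have hcod2 := codim Q S2 G (W1 ⊔ K ∙ w) W2 hW12 (by
    intro v hv x hx
    obtain ⟨a, ha, b, hb, rfl⟩ := Submodule.mem_sup.mp hx
    obtain ⟨t, rfl⟩ := Submodule.mem_span_singleton.mp hb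
    obtain ⟨s, hs⟩ := hGw v hv
    rw [polar_add_right, polar_smul_right, hs]
    refine S2.add_mem (hS12 ?_) (S2.smul_mem _ (S2.smul_mem _ hcS2))
    have h5 := hGH1 hv
    rw [← hH1] at h5
    exact h5.2 a ha) (n := k2) (by rw [hfw]; omega)
  have hW2o : W2 ≤ orth Q S2 G W2 := fun x hx =>
    ⟨hW2G hx, fun y hy => polar_mem Q _ W2 hW2 x hx y hy⟩
  obtain ⟨m2, hm2, hm2'⟩ := aniso_bound Q S2 W2 _ hW2o hmax2
  have hm2u := leepB h1 _ _ hm2'
  rw [hq2] at hcod2 hm2u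
  have hcod1' : finrank K V ≤ finrank K H1 + n1 * (e + 3) := hcod1
  have hn2e : k2 + 1 = n1 := num3 (m := m2) (h := finrank K H1) hcodG hcod1' hcod2
    (by rw [hm2, hn2, hn1]) hm2u hn2u hcon
  -- the third step
  obtain ⟨H2, hH2⟩ : ∃ H2, H2 = orth Q S2 H1 W2 := ⟨_, rfl⟩
  have hH2H1 : H2 ≤ H1 := by
    rw [hH2]
    exact orth_le _ _ _ _
  have hH2p : ∀ v ∈ H2, ∀ x ∈ W2, polar Q v x ∈ S2 := by
    intro v hv
    rw [hH2] at hv
    exact hv.2
  have hH1p : ∀ v ∈ H1, ∀ x ∈ W1, polar Q v x ∈ K ∙ (1 : L) := by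
    intro v hv
    rw [← hH1] at hv
    exact hv.2
  have hcod3 := codim Q S2 H1 W1 W2 hW1W2 (fun v hv x hx => hS12 (hH1p v hv x hx)) hn2
  rw [hq2, ← hH2, hn2e] at hcod3
  have hH2max : ∀ v ∈ H2, Q v ∈ S2 → v ∈ W2 := by
    intro v hv hv'
    have hiso := iso_sup Q S2 W2 v hW2 (hH2p v hv) hv'
    obtain ⟨n', hn', hn''⟩ := line_bound Q (K ∙ (1 : L)) c W1 (W2 ⊔ K ∙ v)
      (hW1W2.trans le_sup_left) (by rwa [← hS2]) (fun x hx hx' => hH1max x
        ((sup_le (hW2G.trans hGH1) ((Submodule.span_singleton_le_iff_mem _ _).mpr (hH2H1 hv))) hx)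
        hx')
    have h5 := le_of_aniso h1 hn''
    have h6 : finrank K ↥(W2 ⊔ K ∙ v) ≤ finrank K W2 := by omega
    have h7 : W2 = W2 ⊔ K ∙ v := Submodule.eq_of_le_of_finrank_le le_sup_left h6
    rw [h7]
    exact Submodule.mem_sup_right (Submodule.mem_span_singleton_self v)
  -- the vector `y`
  obtain ⟨y, hy⟩ : ∃ y, y = c⁻¹ • w := ⟨_, rfl⟩
  have hpy : ∀ x, polar Q y x = c⁻¹ * polar Q w x := by
    intro x
    rw [hy, hpl]
  have hQy : Q y = c⁻¹ := by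
    rw [hy, hsm, ← hc]
    field_simp
  have hyW2p : ∀ x ∈ W2, polar Q y x ∈ S2 := by
    intro x hx
    obtain ⟨a, ha⟩ := hGw x (hW2G hx)
    rw [hpy, polar_comm, ha, mul_smul_comm, inv_mul_cancel₀ hc0]
    exact S2.smul_mem _ h1S2
  have hyH1 : y ∈ H1 := by
    rw [← hH1]
    refine ⟨trivial, fun x hx => ?_⟩
    rw [hpy, hwp x hx, mul_zero]
    exact Submodule.zero_mem _
  have hyH2 : y ∈ H2 := by
    rw [hH2]
    exact ⟨hyH1, hyW2p⟩
  have hyW2 : y ∉ W2 := by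
    intro h
    apply hcA
    rw [← hQy]
    exact hW2 y h
  obtain ⟨S3, hS3⟩ : ∃ S3, S3 = S2 ⊔ K ∙ c⁻¹ := ⟨_, rfl⟩
  have hS23 : S2 ≤ S3 := by
    rw [hS3]
    exact le_sup_left
  have hcS3 : c⁻¹ ∈ S3 := by
    rw [hS3]
    exact Submodule.mem_sup_right (Submodule.mem_span_singleton_self _)
  rw [← hS3] at hq3
  have hW2H2 : W2 ≤ H2 := by
    intro x hx
    rw [hH2]
    exact ⟨hGH1 (hW2G hx), fun z hz => polar_mem Q _ W2 hW2 x hx z hz⟩
  obtain ⟨W3, hW23, hW3H2, hW3, hmax3⟩ := exists_max Q S3 (W2 ⊔ K ∙ y) H2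
    (sup_le hW2H2 ((Submodule.span_singleton_le_iff_mem _ _).mpr hyH2))
    (iso_sup Q S3 W2 y (fun x hx => hS23 (hW2 x hx)) (fun x hx => hS23 (hyW2p x hx))
      (by rw [hQy]; exact hcS3))
  have hW2W3 : W2 ≤ W3 := le_sup_left.trans hW23
  obtain ⟨n3, hn3, hn3'⟩ := line_bound Q S2 c⁻¹ W2 W3 hW2W3 (by rwa [← hS3])
    (fun v hv hv' => hH2max v (hW3H2 hv) hv')
  have hn3u := le_of_aniso h1 hn3'
  have hfy : finrank K ↥(W2 ⊔ K ∙ y) = finrank K W2 + 1 := finrank_sup_span W2 y hyW2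
  obtain ⟨k3, rfl⟩ : ∃ k, n3 = k + 1 := by
    have h5 := Submodule.finrank_mono hW23
    rw [hfy] at h5
    exact ⟨n3 - 1, by omega⟩
  have hcod4 := codim Q S3 H2 (W2 ⊔ K ∙ y) W3 hW23 (by
    intro v hv x hx
    obtain ⟨a, ha, b, hb, rfl⟩ := Submodule.mem_sup.mp hx
    obtain ⟨t, rfl⟩ := Submodule.mem_span_singleton.mp hb
    rw [polar_add_right, polar_smul_right]
    refine S3.add_mem (hS23 (hH2p v hv a ha)) (S3.smul_mem _ ?_)
    rw [polar_comm, hpy, polar_comm]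
    have h5 := hH2p v hv w hwW2
    rw [hS2] at h5
    obtain ⟨p, hp, q, hq, hpq⟩ := Submodule.mem_sup.mp h5
    obtain ⟨α, rfl⟩ := Submodule.mem_span_singleton.mp hp
    obtain ⟨β, rfl⟩ := Submodule.mem_span_singleton.mp hq
    rw [← hpq, mul_add, mul_smul_comm, mul_smul_comm, mul_one, inv_mul_cancel₀ hc0]
    exact S3.add_mem (S3.smul_mem _ hcS3) (S3.smul_mem _ (hS23 h1S2))) (n := k3)
    (by rw [hfy]; omega)
  have hW3o : W3 ≤ orth Q S3 H2 W3 := fun x hx =>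
    ⟨hW3H2 hx, fun y hy => polar_mem Q _ W3 hW3 x hx y hy⟩
  obtain ⟨m3, hm3, hm3'⟩ := aniso_bound Q S3 W3 _ hW3o hmax3
  have hm3u := leepB h1 _ _ hm3'
  rw [hq3] at hcod4 hm3u
  exact num4 (m := m3) hcod1' hcod3 hcod4
    (by rw [hm3, hn3, hn2, hn1, hn2e]) hm3u hn3u hcon

end

end LeepC
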