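import Pool.Agent.H5.Leep.QC3

/-!
Leep's steps for anisotropic quadratic maps, in terms of subspaces.
-/

namespace LeepC

open Module LeepA QuadraticMap

section
variable {K V U : Type*} [Field K] [AddCommGroup V] [Module K V] [FiniteDimensional K V]
  [AddCommGroup U] [Module K U] [FiniteDimensional K U]

/-- the vectors of `G` that pair with `W` into `S` -/
def orth (Q : QuadraticMap K V U) (S : Submodule K U) (G W : Submodule K V) : Submodule K V where
  carrier := {v | v ∈ G ∧ ∀ w ∈ W, polar Q v w ∈ S}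
  zero_mem' := ⟨G.zero_mem, fun w _ => by
    have h : polar Q 0 w = 0 := by
      have := polar_smul_left Q (0 : K) 0 w
      rwa [zero_smul, zero_smul] at this
    rw [h]
    exact S.zero_mem⟩
  add_mem' := by
    rintro a b ⟨ha, ha'⟩ ⟨hb, hb'⟩
    refine ⟨G.add_mem ha hb, fun w hw => ?_⟩
    rw [polar_add_left]
    exact S.add_mem (ha' w hw) (hb' w hw)
  smul_mem' := by
    rintro c a ⟨ha, ha'⟩
    refine ⟨G.smul_mem c ha, fun w hw => ?_⟩
    rw [polar_smul_left]
    exact S.smul_mem c (ha' w hw)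

theorem mem_orth {Q : QuadraticMap K V U} {S : Submodule K U} {G W : Submodule K V} {v : V} :
    v ∈ orth Q S G W ↔ v ∈ G ∧ ∀ w ∈ W, polar Q v w ∈ S := Iff.rfl

theorem orth_le (Q : QuadraticMap K V U) (S : Submodule K U) (G W : Submodule K V) :
    orth Q S G W ≤ G := fun _ h => h.1

/-- adding a vector to an isotropic subspace -/
theorem iso_sup (Q : QuadraticMap K V U) (S : Submodule K U) (W : Submodule K V) (v : V)
    (hW : ∀ w ∈ W, Q w ∈ S) (hv : ∀ w ∈ W, polar Q v w ∈ S) (hQ : Q v ∈ S) :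
    ∀ w ∈ W ⊔ K ∙ v, Q w ∈ S := by
  intro w hw
  obtain ⟨a, ha, b, hb, rfl⟩ := Submodule.mem_sup.mp hw
  obtain ⟨c, rfl⟩ := Submodule.mem_span_singleton.mp hb
  rw [QuadraticMap.map_add Q a (c • v), QuadraticMap.map_smul, polar_smul_right, polar_comm]
  exact S.add_mem (S.add_mem (hW a ha) (S.smul_mem _ hQ)) (S.smul_mem _ (hv a ha))

/-- a maximal `S`-isotropic subspace between `W0` and `G` -/
theorem exists_max (Q : QuadraticMap K V U) (S : Submodule K U) (W0 G : Submodule K V)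
    (h0 : W0 ≤ G) (hW : ∀ w ∈ W0, Q w ∈ S) :
    ∃ W, W0 ≤ W ∧ W ≤ G ∧ (∀ w ∈ W, Q w ∈ S) ∧
      ∀ v ∈ orth Q S G W, Q v ∈ S → v ∈ W := by
  obtain ⟨W, ⟨h1, h2, h3⟩, h4⟩ := (wellFounded_gt (α := Submodule K V)).has_min
    {W | W0 ≤ W ∧ W ≤ G ∧ ∀ w ∈ W, Q w ∈ S} ⟨W0, le_rfl, h0, hW⟩
  refine ⟨W, h1, h2, h3, fun v hv hQ => ?_⟩
  by_contra hvW
  apply h4 (W ⊔ K ∙ v) ⟨h1.trans le_sup_left, sup_le h2 ?_, iso_sup Q S W v h3 hv.2 hQ⟩
  · refine lt_of_le_of_ne le_sup_left (fun h => hvW ?_)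
    rw [h]
    exact Submodule.mem_sup_right (Submodule.mem_span_singleton_self v)
  · rw [Submodule.span_singleton_le_iff_mem]
    exact hv.1

/-- a relative complement -/
theorem exists_compl (W0 W : Submodule K V) (h : W0 ≤ W) :
    ∃ C ≤ W, W0 ⊔ C = W ∧ W0 ⊓ C = ⊥ ∧ finrank K W = finrank K W0 + finrank K C := by
  obtain ⟨C', hC'⟩ := Submodule.exists_isCompl W0
  have h1 : W0 ⊔ C' ⊓ W = W := by
    rw [← sup_inf_assoc_of_le C' h, hC'.sup_eq_top, top_inf_eq]
  have h2 : W0 ⊓ (C' ⊓ W) = ⊥ := by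
    rw [← inf_assoc, hC'.inf_eq_bot, bot_inf_eq]
  refine ⟨C' ⊓ W, inf_le_right, h1, h2, ?_⟩
  have h3 := Submodule.finrank_sup_add_finrank_inf_eq W0 (C' ⊓ W)
  rw [h1, h2, finrank_bot, add_zero] at h3
  exact h3

/-- the codimension of the orthogonal -/
theorem codim (Q : QuadraticMap K V U) (S : Submodule K U) (G W0 W : Submodule K V)
    (hW0 : W0 ≤ W) (h : ∀ v ∈ G, ∀ w ∈ W0, polar Q v w ∈ S) {n : ℕ}
    (hn : finrank K W = finrank K W0 + n) :
    finrank K G ≤ finrank K (orth Q S G W) + n * finrank K (U ⧸ S) := by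
  obtain ⟨C, hCW, hsup, -, hC⟩ := exists_compl W0 W hW0
  have hCn : finrank K C = n := by omega
  let T : G →ₗ[K] C →ₗ[K] U ⧸ S :=
    ((Q.polarBilin.compl₁₂ G.subtype C.subtype).compr₂ S.mkQ)
  have hT : ∀ v c, T v c = S.mkQ (polar Q v c) := fun v c => rfl
  have h1 := LinearMap.finrank_range_add_finrank_ker T
  have h2 : finrank K (LinearMap.range T) ≤ n * finrank K (U ⧸ S) := by
    have h3 := Submodule.finrank_le (LinearMap.range T)
    rwa [Module.finrank_linearMap, hCn] at h3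
  have h4 : finrank K (LinearMap.ker T) ≤ finrank K (orth Q S G W) := by
    rw [← Submodule.finrank_map_subtype_eq]
    apply Submodule.finrank_mono
    rintro v ⟨⟨v, hvG⟩, hv, rfl⟩
    refine ⟨hvG, fun w hw => ?_⟩
    rw [← hsup] at hw
    obtain ⟨a, ha, b, hb, rfl⟩ := Submodule.mem_sup.mp hw
    rw [polar_add_right]
    apply S.add_mem (h _ hvG a ha)
    have h5 : T ⟨v, hvG⟩ ⟨b, hb⟩ = 0 := by
      rw [LinearMap.mem_ker.mp hv]
      rfl
    rw [hT] at h5
    rwa [Submodule.mkQ_apply, Submodule.Quotient.mk_eq_zero] at h5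
  omega

/-- anisotropy modulo `S` on a complement -/
theorem aniso_bound (Q : QuadraticMap K V U) (S : Submodule K U) (W H : Submodule K V)
    (hWH : W ≤ H) (h : ∀ v ∈ H, Q v ∈ S → v ∈ W) :
    ∃ n, finrank K H = finrank K W + n ∧ HasAnisoSystem K (finrank K (U ⧸ S)) n := by
  obtain ⟨C, hCH, -, hinf, hC⟩ := exists_compl W H hWH
  refine ⟨finrank K C, hC, ?_⟩
  apply aniso_of_map (S.mkQ.compQuadraticMap (Q.comp C.subtype))
  intro v hv
  have h1 : Q v ∈ S := by
    rw [← Submodule.Quotient.mk_eq_zero]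
    exact hv
  have h2 : (v : V) ∈ W ⊓ C := ⟨h v (hCH v.2) h1, v.2⟩
  rw [hinf, Submodule.mem_bot] at h2
  exact Subtype.ext h2

/-- values in a line -/
theorem line_bound (Q : QuadraticMap K V U) (S : Submodule K U) (z : U) (W W' : Submodule K V)
    (hWW' : W ≤ W') (hQ : ∀ v ∈ W', Q v ∈ S ⊔ K ∙ z) (h : ∀ v ∈ W', Q v ∈ S → v ∈ W) :
    ∃ n, finrank K W' = finrank K W + n ∧ HasAnisoSystem K 1 n := by
  obtain ⟨C, hCH, -, hinf, hC⟩ := exists_compl W W' hWW'
  refine ⟨finrank K C, hC, ?_⟩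
  by_cases hz : z ∈ S
  · have h1 : C = ⊥ := by
      rw [eq_bot_iff, ← hinf]
      intro v hv
      refine ⟨h v (hCH hv) ?_, hv⟩
      have h2 := hQ v (hCH hv)
      rwa [sup_eq_left.mpr ((Submodule.span_singleton_le_iff_mem _ _).mpr hz)] at h2
    rw [h1, finrank_bot]
    exact hasAnisoSystem_one.mono (Nat.zero_le 1)
  · obtain ⟨f, hfz, hfS⟩ := Submodule.exists_dual_map_eq_bot_of_notMem hz inferInstance
    have hf0 : ∀ s ∈ S, f s = 0 := by
      intro s hs
      have h1 : f s ∈ S.map f := ⟨s, hs, rfl⟩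
      rwa [hfS, Submodule.mem_bot] at h1
    have h1 := aniso_of_map (LinearMap.compQuadraticMap f (Q.comp C.subtype)) (by
      intro v hv
      have h2 : f (Q v) = 0 := hv
      obtain ⟨s, hs, t, ht, hst⟩ := Submodule.mem_sup.mp (hQ v (hCH v.2))
      obtain ⟨c, rfl⟩ := Submodule.mem_span_singleton.mp ht
      rw [← hst, map_add, hf0 s hs, map_smul, zero_add, smul_eq_mul] at h2
      have hc : c = 0 := (mul_eq_zero.mp h2).resolve_right hfz
      rw [hc, zero_smul, add_zero] at hst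
      have h3 : (v : V) ∈ W ⊓ C := ⟨h v (hCH v.2) (by rw [← hst]; exact hs), v.2⟩
      rw [hinf, Submodule.mem_bot] at h3
      exact Subtype.ext h3)
    rwa [finrank_self] at h1

end

theorem le_of_aniso {K : Type*} [Field K] {r N n : ℕ} (h : ¬ HasAnisoSystem K r (N + 1))
    (h' : HasAnisoSystem K r n) : n ≤ N := by
  by_contra hcon
  exact h (h'.mono (by omega))

/-- the quadratic map of a system -/
def sysMap {K V : Type*} [Field K] [AddCommGroup V] [Module K V] {r : ℕ}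
    (q : Fin r → QuadraticForm K V) : QuadraticMap K V (Fin r → K) :=
  ∑ i, (LinearMap.single K (fun _ : Fin r => K) i).compQuadraticMap (q i)

theorem sysMap_apply {K V : Type*} [Field K] [AddCommGroup V] [Module K V] {r : ℕ}
    (q : Fin r → QuadraticForm K V) (v : V) (i : Fin r) : sysMap q v i = q i v := by
  rw [sysMap, sum_apply, Finset.sum_apply, Finset.sum_eq_single i]
  · simp
  · intro j _ hj
    simp [Pi.single_eq_of_ne hj.symm]
  · intro h
    exact absurd (Finset.mem_univ i) h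

/-- Leep's estimate (B) -/
theorem leepB {K : Type*} [Field K] {u : ℕ} (h1 : ¬ HasAnisoSystem K 1 (u + 1)) (r N : ℕ)
    (h : HasAnisoSystem K r N) : 2 * N ≤ r * (r + 1) * u := by
  induction r generalizing N with
  | zero =>
    by_contra hcon
    have h2 : 1 ≤ N := by omega
    obtain ⟨q, hq⟩ := h.mono h2
    have h3 := hq 1 (fun i => i.elim0)
    exact one_ne_zero (congrFun h3 0)
  | succ r ih =>
    obtain ⟨q, hq⟩ := h
    let Q := sysMap q
    have hQ : ∀ v, Q v = 0 → v = 0 := fun v hv => hq v fun i => by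
      rw [← sysMap_apply, show sysMap q v = 0 from hv, Pi.zero_apply]
    let z : Fin (r + 1) → K := Pi.single 0 1
    obtain ⟨W, -, -, hW, hmax⟩ := exists_max Q (⊥ ⊔ K ∙ z) ⊥ ⊤ bot_le (by
      intro w hw
      rw [Submodule.mem_bot] at hw
      rw [hw, QuadraticMap.map_zero]
      exact Submodule.zero_mem _)
    obtain ⟨n, hn, hn'⟩ := line_bound Q ⊥ z ⊥ W bot_le hW (fun v _ hv => by
      rw [Submodule.mem_bot] at hv ⊢
      exact hQ v hv)
    have hnu := le_of_aniso h1 hn'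
    rw [finrank_bot, zero_add] at hn
    have hcod := codim Q (⊥ ⊔ K ∙ z) ⊤ ⊥ W bot_le (by
      intro v _ w hw
      rw [Submodule.mem_bot] at hw
      rw [hw]
      have h5 := polar_smul_right Q (0 : K) v 0
      rw [zero_smul, zero_smul] at h5
      rw [h5]
      exact Submodule.zero_mem _) (n := n) (by rw [finrank_bot, zero_add, hn])
    have hz : z ≠ 0 := by
      intro h0
      have := congrFun h0 0
      simp [z] at this
    have hS : finrank K ((Fin (r + 1) → K) ⧸ (⊥ ⊔ K ∙ z)) = r := by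
      have h5 := Submodule.finrank_quotient_add_finrank (⊥ ⊔ K ∙ z)
      rw [bot_sup_eq, finrank_span_singleton hz, finrank_fin_fun] at h5
      rw [bot_sup_eq]
      omega
    have hWH : W ≤ orth Q (⊥ ⊔ K ∙ z) ⊤ W := by
      intro w hw
      refine ⟨trivial, fun w' hw' => ?_⟩
      rw [polar]
      exact Submodule.sub_mem _ (Submodule.sub_mem _ (hW _ (W.add_mem hw hw')) (hW _ hw)) (hW _ hw')
    obtain ⟨m, hm, hm'⟩ := aniso_bound Q (⊥ ⊔ K ∙ z) W _ hWH hmax
    rw [hS] at hm' hcod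
    have h6 := ih m hm'
    rw [finrank_top, finrank_fin_fun] at hcod
    have h7 : N ≤ m + (r + 1) * n := by
      have : n * r + n = (r + 1) * n := by ring
      omega
    have h8 : (r + 1) * n ≤ (r + 1) * u := Nat.mul_le_mul_left _ hnu
    calc 2 * N ≤ 2 * m + 2 * ((r + 1) * u) := by omega
      _ ≤ r * (r + 1) * u + 2 * ((r + 1) * u) := by omega
      _ = (r + 1) * (r + 1 + 1) * u := by ring

end LeepC
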