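import Pool.Agent.H6.LeepC.Step

/-!
Leep's estimate (C), and its consequence for extensions with a quadratic subextension.
-/

namespace LeepC

open Module LeepA QuadraticMap IntermediateField

/-- Leep's estimate (C) -/
theorem leepC {K L : Type*} [Field K] [Field L] [Algebra K L] [FiniteDimensional K L] {u N : ℕ}
    (h1 : ¬ HasAnisoSystem K 1 (u + 1)) (hN : HasAnisoSystem L 1 N) :
    2 * N ≤ (finrank K L + 1) * u := by
  have h2 := leepB h1 _ _ (transfer (K := K) hN)
  have hd : 0 < finrank K L := finrank_pos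
  have h3 : finrank K L * (2 * N) ≤ finrank K L * ((finrank K L + 1) * u) := by
    calc finrank K L * (2 * N) = 2 * (finrank K L * N) := by ring
      _ ≤ finrank K L * (finrank K L + 1) * u := h2
      _ = _ := by ring
  exact Nat.le_of_mul_le_mul_left h3 hd

theorem finrank_sup_span {K V : Type*} [Field K] [AddCommGroup V] [Module K V]
    [FiniteDimensional K V] (W : Submodule K V) (w : V) (hw : w ∉ W) :
    finrank K ↥(W ⊔ K ∙ w) = finrank K W + 1 := by
  have h1 := Submodule.finrank_sup_add_finrank_inf_eq W (K ∙ w)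
  have h2 : W ⊓ (K ∙ w) = ⊥ := by
    rw [eq_bot_iff]
    rintro x ⟨hx, hx'⟩
    obtain ⟨c, rfl⟩ := Submodule.mem_span_singleton.mp hx'
    rw [Submodule.mem_bot]
    by_cases hc : c = 0
    · rw [hc, zero_smul]
    · exact absurd ((Submodule.smul_mem_iff W hc).mp hx) hw
  have hw0 : w ≠ 0 := fun h => hw (h ▸ W.zero_mem)
  rw [h2, finrank_bot, finrank_span_singleton hw0] at h1
  omega

theorem finrank_quot_sup {K V : Type*} [Field K] [AddCommGroup V] [Module K V]
    [FiniteDimensional K V] (W : Submodule K V) (w : V) (hw : w ∉ W) :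
    finrank K (V ⧸ (W ⊔ K ∙ w)) + 1 = finrank K (V ⧸ W) := by
  have h1 := Submodule.finrank_quotient_add_finrank (W ⊔ K ∙ w)
  have h2 := Submodule.finrank_quotient_add_finrank W
  rw [finrank_sup_span W w hw] at h1
  omega

theorem case_quadratic {K L : Type*} [Field K] [Field L] [Algebra K L] [FiniteDimensional K L]
    {u N : ℕ} (h1 : ¬ HasAnisoSystem K 1 (u + 1)) (hN : HasAnisoSystem L 1 N) (c : L)
    (hc : c ∉ K ∙ (1 : L)) (hc' : c⁻¹ ∈ (K ∙ (1 : L)) ⊔ K ∙ c) :
    ∃ e, finrank K L = 2 * e ∧ 4 * N ≤ 3 * (e + 1) * u := by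
  have hc0 : c ≠ 0 := fun h => hc (h ▸ Submodule.zero_mem _)
  obtain ⟨s, hs, t, ht, hst⟩ := Submodule.mem_sup.mp hc'
  obtain ⟨α, rfl⟩ := Submodule.mem_span_singleton.mp hs
  obtain ⟨β, rfl⟩ := Submodule.mem_span_singleton.mp ht
  have hint : IsIntegral K c := IsIntegral.of_finite K c
  have hβ : β ≠ 0 := by
    intro h
    rw [h, zero_smul, add_zero] at hst
    apply hc
    rw [Submodule.mem_span_singleton]
    refine ⟨α⁻¹, ?_⟩
    rw [Algebra.smul_def, mul_one, map_inv₀, ← inv_inv c, ← hst, Algebra.smul_def, mul_one]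
  have heq : algebraMap K L β * c ^ 2 + algebraMap K L α * c - 1 = 0 := by
    rw [Algebra.smul_def, Algebra.smul_def, mul_one] at hst
    have h2 : c⁻¹ * c = 1 := inv_mul_cancel₀ hc0
    rw [← hst] at h2
    linear_combination h2
  have hle : (minpoly K c).natDegree ≤ 2 := by
    let p : Polynomial K := Polynomial.C β * Polynomial.X ^ 2 + Polynomial.C α * Polynomial.X +
      Polynomial.C (-1)
    have hp0 : p ≠ 0 := by
      intro h
      have := congrArg (fun f : Polynomial K => f.natDegree) h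
      simp only [p] at this
      rw [Polynomial.natDegree_quadratic hβ, Polynomial.natDegree_zero] at this
      omega
    have hp : Polynomial.aeval c p = 0 := by
      simp only [p, map_add, map_mul, map_pow, Polynomial.aeval_C, Polynomial.aeval_X, map_neg,
        map_one]
      linear_combination heq
    have h2 := Polynomial.natDegree_le_natDegree (minpoly.degree_le_of_ne_zero K c hp0 hp)
    rwa [Polynomial.natDegree_quadratic hβ] at h2
  have hge : 2 ≤ (minpoly K c).natDegree := by
    rw [minpoly.two_le_natDegree_iff hint]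
    rintro ⟨x, hx⟩
    apply hc
    rw [Submodule.mem_span_singleton]
    exact ⟨x, by rw [Algebra.smul_def, mul_one, hx]⟩
  have hM : finrank K K⟮c⟯ = 2 := by
    rw [adjoin.finrank hint]
    omega
  have hmul := Module.finrank_mul_finrank K K⟮c⟯ L
  rw [hM] at hmul
  refine ⟨finrank K⟮c⟯ L, hmul.symm, ?_⟩
  have h2 : ¬ HasAnisoSystem K⟮c⟯ 1 (3 * u / 2 + 1) := by
    intro h
    have := leepC h1 h
    rw [hM] at this
    omega
  have h3 := leepC h2 hN
  have h4 : 2 * (3 * u / 2) ≤ 3 * u := Nat.mul_div_le _ _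
  calc 4 * N = 2 * (2 * N) := by ring
    _ ≤ 2 * ((finrank K⟮c⟯ L + 1) * (3 * u / 2)) := Nat.mul_le_mul_left _ h3
    _ = (finrank K⟮c⟯ L + 1) * (2 * (3 * u / 2)) := by ring
    _ ≤ (finrank K⟮c⟯ L + 1) * (3 * u) := Nat.mul_le_mul_left _ h4
    _ = _ := by ring

end LeepC
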